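import Pool.Agent.V1142.PA.A2

/-!
# Two extensions of `K` suffice

`K` is a number field, `Z` the set of the primes dividing `𝔫`, `a v` and `b v` the images in `ℚ̄_l` of
`a_℘ = θ(T_℘)` and `b_℘ = θ(S_℘)`.  Let `L₀` be a finite extension of `K` in `K̄` and `ρ₀` a continuous
semisimple representation of `Gal(K̄/L₀)` on `ℚ̄_l ^ 2` which satisfies condition (i) at the places of
relative degree one of `L₀` above the primes outside `Z`, `l` and a finite set `S₀`.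

Then there is a finite extension `M` of `K`, depending only on this, such that for every finite
extension `L₁` of `K` with `L₁ ∩ M = K` and every representation `ρ₁` of `Gal(K̄/L₁)` of the same kind
(with a finite set `S₁`) there is a continuous semisimple representation `ρ` of `Gal(K̄/K)` which
extends both up to isomorphism, is irreducible if `ρ₀` or `ρ₁` is, and satisfies condition (i) at all
primes outside `Z` and `l` at which (and outside `S_i`) `L_i` has a place with the same completion as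
`K`, for `i = 0` or `i = 1`.
-/

set_option autoImplicit false

namespace Pool.Agent.Results.MP_976e2b_nt.TwoExtensionsSuffice

open NumberField IsDedekindDomain Pool.Agent.V1142.PA

theorem result (K : Type) [Field K] [NumberField K] (l : ℕ) [Fact l.Prime]
    (Z : Set (HeightOneSpectrum (𝓞 K))) (hZ : Z.Finite) (a b : HeightOneSpectrum (𝓞 K) → PadicAlgCl l)
    (L₀ : Ext K) (hL₀ : FiniteDimensional K L₀) (ρ₀ : GE L₀ →* GL (Fin 2) (PadicAlgCl l))
    (hρ₀ : Continuous ρ₀) (hss₀ : IsSemisimpleG ρ₀) (S₀ : Set (HeightOneSpectrum (𝓞 K)))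
    (hS₀ : S₀.Finite)
    (hc₀ : ∀ v ∉ Z ∪ S₀, (l : 𝓞 K) ∉ v.asIdeal → CondIDegreeOne ρ₀ v (a v) (b v)) :
    ∃ M : Ext K, FiniteDimensional K M ∧ ∀ L₁ : Ext K, FiniteDimensional K L₁ → L₁ ⊓ M = ⊥ →
      ∀ ρ₁ : GE L₁ →* GL (Fin 2) (PadicAlgCl l), Continuous ρ₁ → IsSemisimpleG ρ₁ →
      ∀ S₁ : Set (HeightOneSpectrum (𝓞 K)), S₁.Finite →
      (∀ v ∉ Z ∪ S₁, (l : 𝓞 K) ∉ v.asIdeal → CondIDegreeOne ρ₁ v (a v) (b v)) →
      ∃ ρ : GF K →* GL (Fin 2) (PadicAlgCl l), Continuous ρ ∧ IsSemisimpleG ρ ∧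
        (∃ h : GL (Fin 2) (PadicAlgCl l), ∀ g : GE L₀, ρ g = h * ρ₀ g * h⁻¹) ∧
        (∃ h : GL (Fin 2) (PadicAlgCl l), ∀ g : GE L₁, ρ g = h * ρ₁ g * h⁻¹) ∧
        (IsIrrG ρ₀ ∨ IsIrrG ρ₁ → IsIrrG ρ) ∧
        ∀ v ∉ Z, (l : 𝓞 K) ∉ v.asIdeal →
          (v ∉ S₀ ∧ HasLocalDegreeOneF L₀ v) ∨ (v ∉ S₁ ∧ HasLocalDegreeOneF L₁ v) →
          CondI ρ v (a v) (b v) :=
  two_ext_main l Z hZ a b L₀ hL₀ ρ₀ hρ₀ hss₀ S₀ hS₀ hc₀

end Pool.Agent.Results.MP_976e2b_nt.TwoExtensionsSuffice
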